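import Pool.Agent.Y683.AA.CF

/-!
# Base changes of a newform to the totally real cyclic number fields: central orders of vanishing

`f ∈ S_{2m}(Γ₁(N))` is a newform of even weight `2m` with character `η`.  A primitive Dirichlet
character `χ` is a faithful character of a cyclic number field; its powers `χ^j` with `χ^j(-1) = 1` are
the characters of the maximal totally real subfield `F = F(χ)`.  The base change `g` of `f` to `F` is a
Hilbert modular form of parallel weight `2m` (with trivial central character if `η` is trivial), its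
`L`-function is the product of the `L(f, χ^j, s)` over these `j`, and the Bloch-Kato formula predicts
its order of vanishing at the centre `s = m`.

For `100%` of the `χ` of conductor at most `X` the degree of `F` is at least `X^(1 - ε) / 2`, the order
of vanishing at the centre is at most `C [F : ℚ]^(3/4 + ε)`, and the central values
`L(f, χ^j, m)` do not vanish if `gcd(j, n) ≤ X^(1/4 - ε)`, `n` the order of `χ`: the parts of the
`L`-function that are new at the subfields `F'` of `F` with `[F : F'] ≤ X^(1/4 - ε) / 2` have order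
of vanishing `0`.
-/

set_option autoImplicit false

open Complex UpperHalfPlane MatrixGroups CongruenceSubgroup

namespace Pool.Agent.Results.MP_6e2fc3_nt.CyclicBaseChange

/-- The `n`-th Fourier coefficient of `f`. -/
noncomputable def coef {N : ℕ} {k : ℤ} (f : CuspForm (Gamma1 N : Subgroup (GL (Fin 2) ℝ)) k)
    (n : ℕ) : ℂ :=
  (qExpansion 1 f).coeff n

/-- `f ∈ S_{2m}(Γ₁(N))` is a newform of weight `2m` with character `η`:
`f(γτ) = η(d) (cτ + d)^(2m) f(τ)` for all `γ = (a b; c d) ∈ Γ₀(N)`, the Fourier coefficients `c(n)` of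
`f` satisfy `c(1) = 1`, `c(ab) = c(a) c(b)` for coprime `a`, `b`,
`c(p^(j+2)) = c(p) c(p^(j+1)) - η(p) p^(2m-1) c(p^j)`, and for the primes `p ∤ N` also
`conj c(p) = conj η(p) c(p)` and `|c(p)| ≤ 2 p^((2m-1)/2)` (Deligne), for the primes `p ∣ N`
`|c(p)| ≤ p^((2m-1)/2)`; the Fricke involution takes `f` to a multiple of `f^c`,
`f^c(τ) = conj f(-conj τ)`: `f(-1/(Nτ)) = w (-N)^m τ^(2m) f^c(τ)` with `|w| = 1`. -/
structure IsNewform (m N : ℕ) (η : DirichletCharacter ℂ N)
    (f : CuspForm (Gamma1 N : Subgroup (GL (Fin 2) ℝ)) (2 * m : ℤ)) : Prop where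
  neb : ∀ γ : SL(2, ℤ), γ ∈ Gamma0 N → ∀ τ : ℍ, f (γ • τ) = η ((γ 1 1 : ℤ) : ZMod N) *
    (((γ 1 0 : ℤ) : ℂ) * (τ : ℂ) + ((γ 1 1 : ℤ) : ℂ)) ^ (2 * m) * f τ
  one : coef f 1 = 1
  mul : ∀ a b : ℕ, Nat.Coprime a b → coef f (a * b) = coef f a * coef f b
  pow : ∀ p j : ℕ, p.Prime → coef f (p ^ (j + 2)) = coef f p * coef f (p ^ (j + 1)) -
    η (p : ZMod N) * (p : ℂ) ^ (2 * m - 1) * coef f (p ^ j)
  conj : ∀ p : ℕ, p.Prime → ¬ p ∣ N → (starRingEnd ℂ) (coef f p) =
    (starRingEnd ℂ) (η (p : ZMod N)) * coef f p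
  good : ∀ p : ℕ, p.Prime → ¬ p ∣ N → ‖coef f p‖ ≤ 2 * (p : ℝ) ^ ((2 * m - 1 : ℝ) / 2)
  bad : ∀ p : ℕ, p.Prime → p ∣ N → ‖coef f p‖ ≤ (p : ℝ) ^ ((2 * m - 1 : ℝ) / 2)
  fricke : ∃ w : ℂ, ‖w‖ = 1 ∧ ∀ τ τ' τc : ℍ, (τ' : ℂ) * ((N : ℂ) * (τ : ℂ)) = -1 →
    (τc : ℂ) = -(starRingEnd ℂ) (τ : ℂ) →
    f τ' = (-1 : ℂ) ^ m * w * (N : ℂ) ^ m * (τ : ℂ) ^ (2 * m) * (starRingEnd ℂ) (f τc)

/-- The Euler factor of `L(f, χ, s)` at the prime `p`:
`(1 - χ(p) c(p) p^(-s) + χ(p)² η(p) p^(2m-1-2s))⁻¹`. -/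
noncomputable def factor {m N : ℕ} (η : DirichletCharacter ℂ N)
    (f : CuspForm (Gamma1 N : Subgroup (GL (Fin 2) ℝ)) (2 * m : ℤ)) (q : ℕ)
    (χ : DirichletCharacter ℂ q) (s : ℂ) (p : ℕ) : ℂ :=
  (1 - χ (p : ZMod q) * coef f p * (p : ℂ) ^ (-s) +
    χ (p : ZMod q) ^ 2 * η (p : ZMod N) * (p : ℂ) ^ (2 * (m : ℂ) - 1 - 2 * s))⁻¹

/-- The exponents `j < n`, `n` the order of `χ`, with `χ^j(-1) = 1`: the `χ^j` are the characters of
the maximal totally real subfield `F(χ)` of the cyclic field attached to `χ`. -/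
noncomputable def realPowers {q : ℕ} (χ : DirichletCharacter ℂ q) : Finset ℕ :=
  open Classical in (Finset.range (orderOf χ)).filter fun j => (χ ^ j) (-1) = 1

/-- The degree `[F(χ) : ℚ]`. -/
noncomputable def degree {q : ℕ} (χ : DirichletCharacter ℂ q) : ℕ := (realPowers χ).card

/-- The product of the `L(f, χ^j, s)` over the characters `χ^j` of `F(χ)` (more precisely over the
primitive characters that induce them): the `L`-function of the base change of `f` to `F(χ)`. -/
noncomputable def baseChangeL (L : (q : ℕ) → DirichletCharacter ℂ q → ℂ → ℂ) {q : ℕ}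
    (χ : DirichletCharacter ℂ q) (s : ℂ) : ℂ :=
  ∏ j ∈ realPowers χ, L (χ ^ j).conductor (χ ^ j).primitiveCharacter s

/-- All primitive Dirichlet characters of conductor `q ≤ X` prime to `N`. -/
def Primitives (N X : ℕ) : Set (Σ q : ℕ, DirichletCharacter ℂ q) :=
  {x | 1 ≤ x.1 ∧ x.1 ≤ X ∧ Nat.Coprime x.1 N ∧ x.2.IsPrimitive}

/-- `exp(-c (log X)^(1/3))`. -/
noncomputable def decay (c : ℝ) (X : ℕ) : ℝ := Real.exp (-c * (Real.log X) ^ ((1 : ℝ) / 3))

/-- The exceptional primitive characters `χ`, of order `n`: those with `[F(χ) : ℚ] < X^(1 - ε) / 2`, or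
with an order of vanishing of the base change of `f` to `F(χ)` at the centre larger than
`C [F(χ) : ℚ]^(3/4 + ε)`, or with `L(f, χ^j, m) = 0` for some `j` with `gcd(j, n) ≤ X^(1/4 - ε)`. -/
def Exceptional (L : (q : ℕ) → DirichletCharacter ℂ q → ℂ → ℂ) (m N : ℕ) (C ε : ℝ) (X : ℕ) :
    Set (Σ q : ℕ, DirichletCharacter ℂ q) :=
  {x ∈ Primitives N X | (degree x.2 : ℝ) < (X : ℝ) ^ (1 - ε) / 2 ∨
    C * (degree x.2 : ℝ) ^ (3 / 4 + ε) < analyticOrderNatAt (baseChangeL L x.2) m ∨
    ∃ j : ℕ, (Nat.gcd j (orderOf x.2) : ℝ) ≤ (X : ℝ) ^ (1 / 4 - ε) ∧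
      L (x.2 ^ j).conductor (x.2 ^ j).primitiveCharacter m = 0}

theorem degree_ge {q : ℕ} (χ : DirichletCharacter ℂ q) : orderOf χ ≤ 2 * degree χ := by
  classical
  have h1 : ∀ i : ℕ, (χ ^ (2 * i)) (-1) = 1 := by
    intro i
    have h2 : (-1 : ZMod q) = (((-1 : (ZMod q)ˣ)) : ZMod q) := by simp
    rw [h2, MulChar.pow_apply_coe, ← h2, pow_mul, ← map_pow]
    simp
  have h3 : (Finset.range ((orderOf χ + 1) / 2)).card ≤ (realPowers χ).card := by
    refine Finset.card_le_card_of_injOn (fun i => 2 * i) (fun i hi => ?_) (fun i _ k _ h => ?_)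
    · rw [Finset.mem_coe, Finset.mem_range] at hi
      change 2 * i ∈ realPowers χ
      unfold realPowers
      rw [Finset.mem_filter, Finset.mem_range]
      exact ⟨by omega, h1 i⟩
    · simp only at h
      omega
  rw [Finset.card_range] at h3
  unfold degree
  omega

/-- **Main theorem.** Let `f ∈ S_{2m}(Γ₁(N))` be a newform of weight `2m` with character `η`.  For every
primitive Dirichlet character `χ` of conductor `q` prime to `N` there is an entire function `L q χ`,
not identically zero near `m`, which for `Re s > m + 1/2` is the Euler product of `L(f, χ, s)`; the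
`L`-function `baseChangeL L χ` of the base change of `f` to the maximal totally real subfield `F(χ)` of
the cyclic field attached to `χ` is entire, not identically zero near `m`, and for `Re s > m + 1/2`
equal to its Euler product.  Let `ε > 0`.  There are `C`, `c > 0` such that

(A) for all `X ≥ 1` and **all** primitive `χ` of conductor at most `X` prime to `N` but a proportion of
at most `C exp(-c (log X)^(1/3))`: `[F(χ) : ℚ] ≥ X^(1 - ε) / 2`, the order of vanishing of the
`L`-function of the base change at `s = m` is at most `C [F(χ) : ℚ]^(3/4 + ε)`, and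
`L(f, χ^j, m) ≠ 0` for all `j` with `gcd(j, n) ≤ X^(1/4 - ε)`, `n` the order of `χ`;

(B) for **all** primitive `χ` of conductor `q` prime to `N` the order of vanishing of the `L`-function
of the base change at `s = m` is at most `C q^(3/4 + ε)`. -/
theorem result (m N : ℕ) [NeZero N] (hm : 1 ≤ m) (η : DirichletCharacter ℂ N)
    (f : CuspForm (Gamma1 N : Subgroup (GL (Fin 2) ℝ)) (2 * m : ℤ)) (hf : IsNewform m N η f) :
    ∃ L : (q : ℕ) → DirichletCharacter ℂ q → ℂ → ℂ,
      (∀ (q : ℕ) (χ : DirichletCharacter ℂ q), 1 ≤ q → Nat.Coprime q N → χ.IsPrimitive →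
        Differentiable ℂ (L q χ) ∧ analyticOrderAt (L q χ) m ≠ ⊤ ∧
        ∀ s : ℂ, (m : ℝ) + 1 / 2 < s.re →
          HasProd (fun p : Nat.Primes => factor η f q χ s p) (L q χ s)) ∧
      (∀ (q : ℕ) (χ : DirichletCharacter ℂ q), 1 ≤ q → Nat.Coprime q N →
        Differentiable ℂ (baseChangeL L χ) ∧ analyticOrderAt (baseChangeL L χ) m ≠ ⊤ ∧
        ∀ s : ℂ, (m : ℝ) + 1 / 2 < s.re → HasProd (fun p : Nat.Primes => ∏ j ∈ realPowers χ,
          factor η f (χ ^ j).conductor (χ ^ j).primitiveCharacter s p) (baseChangeL L χ s)) ∧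
      ∀ ε : ℝ, 0 < ε → ∃ C c : ℝ, 0 < C ∧ 0 < c ∧
        (∀ X : ℕ, 1 ≤ X → ((Exceptional L m N C ε X).ncard : ℝ) ≤
          C * decay c X * (Primitives N X).ncard) ∧
        ∀ (q : ℕ) (χ : DirichletCharacter ℂ q), 1 ≤ q → Nat.Coprime q N →
          (analyticOrderNatAt (baseChangeL L χ) m : ℝ) ≤ C * (q : ℝ) ^ (3 / 4 + ε) := by
  classical
  obtain ⟨w, hw, hfr⟩ := hf.fricke
  obtain ⟨K, L, h1, -, hG, -⟩ := Pool.Agent.Y683.AA.data hm
    (f := f) (η := η) (w := w)
    ⟨hf.one, hf.mul, hf.pow, hf.conj, hf.good, hf.bad, hf.neb, hw, hfr⟩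
  have hN : 1 ≤ N := Nat.pos_of_ne_zero (NeZero.ne N)
  have hcond : ∀ (q : ℕ) (χ : DirichletCharacter ℂ q), 1 ≤ q → Nat.Coprime q N →
      1 ≤ χ.conductor ∧ Nat.Coprime χ.conductor N ∧ χ.primitiveCharacter.IsPrimitive := by
    intro q χ hq hqN
    have : NeZero q := ⟨by omega⟩
    exact ⟨Nat.one_le_iff_ne_zero.2 χ.conductor_ne_zero,
      Nat.Coprime.coprime_dvd_left χ.conductor_dvd_level hqN, χ.primitiveCharacter_isPrimitive⟩
  have hord : ∀ (q : ℕ) (χ : DirichletCharacter ℂ q), 1 ≤ q → Nat.Coprime q N →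
      analyticOrderAt (baseChangeL L χ) m = ((∑ j ∈ realPowers χ,
        analyticOrderNatAt (L (χ ^ j).conductor (χ ^ j).primitiveCharacter) m : ℕ) : ℕ∞) := by
    intro q χ hq hqN
    refine Pool.Agent.Y683.NF.order_prod (realPowers χ)
      (fun j => L (χ ^ j).conductor (χ ^ j).primitiveCharacter) (m : ℂ) (fun j _ => ?_)
      (fun j _ => ?_)
    · obtain ⟨a1, a2, a3⟩ := hcond q (χ ^ j) hq hqN
      exact (h1 _ _ a1 a2 a3).1.analyticAt _
    · obtain ⟨a1, a2, a3⟩ := hcond q (χ ^ j) hq hqN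
      exact (h1 _ _ a1 a2 a3).2.1
  have hordle : ∀ (q : ℕ) (χ : DirichletCharacter ℂ q), 1 ≤ q → Nat.Coprime q N →
      analyticOrderNatAt (baseChangeL L χ) m ≤ ∑ j ∈ Finset.range (orderOf χ),
        analyticOrderNatAt (L (χ ^ j).conductor (χ ^ j).primitiveCharacter) m := by
    intro q χ hq hqN
    have h2 : analyticOrderNatAt (baseChangeL L χ) m = ∑ j ∈ realPowers χ,
        analyticOrderNatAt (L (χ ^ j).conductor (χ ^ j).primitiveCharacter) m := by
      unfold analyticOrderNatAt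
      rw [hord q χ hq hqN]
      rfl
    rw [h2]
    exact Finset.sum_le_sum_of_subset (Finset.filter_subset _ _)
  refine ⟨L, fun q χ hq hqN hχ => h1 q χ hq hqN hχ, fun q χ hq hqN => ⟨?_, ?_, fun s hs => ?_⟩,
    fun ε hε => ?_⟩
  · refine Differentiable.fun_finsetProd fun j _ => ?_
    obtain ⟨a1, a2, a3⟩ := hcond q (χ ^ j) hq hqN
    exact (h1 _ _ a1 a2 a3).1
  · rw [hord q χ hq hqN]
    exact ENat.natCast_ne_top _
  · refine hasProd_prod fun j _ => ?_
    obtain ⟨a1, a2, a3⟩ := hcond q (χ ^ j) hq hqN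
    exact (h1 _ _ a1 a2 a3).2.2 s hs
  · set δ : ℝ := min ε 1 / 4 with hδ
    have hδ0 : 0 < δ := by
      have : 0 < min ε 1 := lt_min hε one_pos
      positivity
    have hδε : 4 * δ ≤ ε := by
      have := min_le_left ε 1
      rw [hδ]
      linarith
    have hδ1 : 4 * δ ≤ 1 := by
      have := min_le_right ε 1
      rw [hδ]
      linarith
    obtain ⟨C1, c1, hC1, hc1, h2⟩ := Pool.Agent.Y683.AA.bc_main hN hG hδ0
    obtain ⟨C2, hC2, h3⟩ := Pool.Agent.Y683.AA.dir_total hG hδ0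
    have h4 : ∀ (q : ℕ) (χ : DirichletCharacter ℂ q), 1 ≤ q → Nat.Coprime q N →
        (analyticOrderNatAt (baseChangeL L χ) m : ℝ) ≤ C2 * (q : ℝ) ^ (3 / 4 + δ) := by
      intro q χ hq hqN
      refine le_trans ?_ (h3 q χ hq hqN)
      exact_mod_cast hordle q χ hq hqN
    refine ⟨max C1 (C2 * (2 : ℝ) ^ (3 / 4 + ε)), c1, lt_max_of_lt_left hC1, hc1, fun X hX => ?_, fun q χ hq hqN => ?_⟩
    · have hX1 : (1 : ℝ) ≤ X := by exact_mod_cast hX
      have hX0 : (0 : ℝ) < X := by linarith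
      have hsub : Exceptional L m N (max C1 (C2 * (2 : ℝ) ^ (3 / 4 + ε))) ε X ⊆
          Pool.Agent.Y683.AA.Bc N (fun q χ => analyticOrderNatAt (L q χ) m) δ X := by
        rintro ⟨q, χ⟩ ⟨hx, hbad⟩
        refine ⟨hx, ?_⟩
        obtain ⟨hq1, hqX, hqN, hχ⟩ := hx
        simp only at hbad hq1 hqX hqN hχ ⊢
        have hdeg := degree_ge χ
        have hdeg' : (orderOf χ : ℝ) ≤ 2 * degree χ := by exact_mod_cast hdeg
        by_contra hcon
        push Not at hcon
        obtain ⟨k1, k2⟩ := hcon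
        have hXε : (X : ℝ) ^ (1 - ε) ≤ (X : ℝ) ^ (1 - δ) :=
          Real.rpow_le_rpow_of_exponent_le hX1 (by linarith)
        rcases hbad with h | h | ⟨j, hj, hz⟩
        · linarith
        · -- the order of the base change
          have hd0 : (0 : ℝ) < degree χ := by
            have : 0 < (X : ℝ) ^ (1 - δ) := by positivity
            linarith
          have hd1 : (1 : ℝ) ≤ 2 * degree χ := by
            have : 1 ≤ (X : ℝ) ^ (1 - δ) := Real.one_le_rpow hX1 (by linarith)
            linarith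
          have e1 : (q : ℝ) ^ (3 / 4 + δ) ≤ (2 * (degree χ : ℝ)) ^ (3 / 4 + ε) := by
            have e2 : (X : ℝ) ≤ (2 * (degree χ : ℝ)) ^ (1 / (1 - δ)) := by
              calc (X : ℝ) = ((X : ℝ) ^ (1 - δ)) ^ (1 / (1 - δ)) := by
                    rw [← Real.rpow_mul hX0.le, mul_one_div_cancel (by linarith), Real.rpow_one]
                _ ≤ (2 * (degree χ : ℝ)) ^ (1 / (1 - δ)) := by
                    refine Real.rpow_le_rpow (by positivity) (by linarith) ?_
                    have : 0 < 1 - δ := by linarith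
                    positivity
            calc (q : ℝ) ^ (3 / 4 + δ) ≤ (X : ℝ) ^ (3 / 4 + δ) := by
                  have : (q : ℝ) ≤ X := by exact_mod_cast hqX
                  gcongr
              _ ≤ ((2 * (degree χ : ℝ)) ^ (1 / (1 - δ))) ^ (3 / 4 + δ) := by gcongr
              _ = (2 * (degree χ : ℝ)) ^ (1 / (1 - δ) * (3 / 4 + δ)) := by
                  rw [← Real.rpow_mul (by positivity)]
              _ ≤ _ := by
                  refine Real.rpow_le_rpow_of_exponent_le hd1 ?_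
                  rw [one_div, inv_mul_le_iff₀ (by linarith)]
                  have e3 : (1 - δ) * (3 / 4 + 4 * δ) ≤ (1 - δ) * (3 / 4 + ε) :=
                    mul_le_mul_of_nonneg_left (by linarith) (by linarith)
                  nlinarith
          have e4 : (2 * (degree χ : ℝ)) ^ (3 / 4 + ε) =
              (2 : ℝ) ^ (3 / 4 + ε) * (degree χ : ℝ) ^ (3 / 4 + ε) :=
            Real.mul_rpow (by norm_num) hd0.le
          have e5 := h4 q χ hq1 hqN
          rw [e4] at e1
          have e6 : C2 * (q : ℝ) ^ (3 / 4 + δ) ≤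
              max C1 (C2 * (2 : ℝ) ^ (3 / 4 + ε)) * (degree χ : ℝ) ^ (3 / 4 + ε) := by
            calc C2 * (q : ℝ) ^ (3 / 4 + δ) ≤
                C2 * ((2 : ℝ) ^ (3 / 4 + ε) * (degree χ : ℝ) ^ (3 / 4 + ε)) :=
                  mul_le_mul_of_nonneg_left e1 hC2.le
              _ = (C2 * (2 : ℝ) ^ (3 / 4 + ε)) * (degree χ : ℝ) ^ (3 / 4 + ε) := by ring
              _ ≤ _ := mul_le_mul_of_nonneg_right (le_max_right _ _) (by positivity)
          linarith
        · have h0 := k2 j (hj.trans (Real.rpow_le_rpow_of_exponent_le hX1 (by linarith)))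
          obtain ⟨a1, a2, a3⟩ := hcond q (χ ^ j) hq1 hqN
          obtain ⟨b1, b2, -⟩ := h1 _ _ a1 a2 a3
          have h6 : analyticOrderAt (L (χ ^ j).conductor (χ ^ j).primitiveCharacter) m = 0 := by
            rw [← Nat.cast_analyticOrderNatAt b2, h0]
            rfl
          exact ((b1.analyticAt _).analyticOrderAt_eq_zero.1 h6) hz
      have hfinB : (Pool.Agent.Y683.AA.Bc N
          (fun q χ => analyticOrderNatAt (L q χ) (m : ℂ)) δ X).Finite :=
        (Pool.Agent.Y683.AA.prim_finite N X).subset fun χ h => h.1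
      refine ((Nat.cast_le (α := ℝ)).2 (Set.ncard_le_ncard hsub hfinB)).trans
        ((h2 X hX).trans ?_)
      have h6 : 0 < Real.exp (-c1 * Pool.Agent.Y683.AA.cr X) := Real.exp_pos _
      change C1 * Real.exp (-c1 * Pool.Agent.Y683.AA.cr X) * _ ≤
        max C1 (C2 * (2 : ℝ) ^ (3 / 4 + ε)) * Real.exp (-c1 * Pool.Agent.Y683.AA.cr X) * _
      have h7 := le_max_left C1 (C2 * (2 : ℝ) ^ (3 / 4 + ε))
      exact mul_le_mul_of_nonneg_right (mul_le_mul_of_nonneg_right h7 h6.le) (Nat.cast_nonneg _)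
    · refine (h4 q χ hq hqN).trans ?_
      have hq1 : (1 : ℝ) ≤ q := by exact_mod_cast hq
      have h7 : C2 ≤ max C1 (C2 * (2 : ℝ) ^ (3 / 4 + ε)) := by
        refine le_trans ?_ (le_max_right _ _)
        exact le_mul_of_one_le_right hC2.le (Real.one_le_rpow (by norm_num) (by linarith))
      have h8 : (q : ℝ) ^ (3 / 4 + δ) ≤ (q : ℝ) ^ (3 / 4 + ε) :=
        Real.rpow_le_rpow_of_exponent_le hq1 (by linarith)
      gcongr

end Pool.Agent.Results.MP_6e2fc3_nt.CyclicBaseChange
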